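import Mathlib
import Pool.Agent.H15R2.Main

/-! Local finiteness from the upper central series and exponent at most four. -/

set_option autoImplicit false

namespace H446.EV

open Subgroup

theorem finite_of_comm {A : Type*} [Group A] [Group.FG A] (hp : ∀ g : A, IsOfFinOrder g)
    (hc : ∀ a b : A, a * b = b * a) : Finite A := by
  letI : CommGroup A := { (inferInstance : Group A) with mul_comm := hc }
  exact CommGroup.finite_of_fg_torsion A (fun g => hp g)

theorem lf_of_ucs {G : Type*} [Group G] (hp : ∀ g : G, IsOfFinOrder g) {c d : ℕ} (hd1 : 1 ≤ d)
    (hd4 : d ≤ 4) (h : ∀ g : G, g ^ d ∈ Subgroup.upperCentralSeries G c) :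
    ∀ K : Subgroup G, K.FG → Finite K := by
  intro K hK
  haveI hKfg : Group.FG K := (Group.fg_iff_subgroup_fg K).2 hK
  have key : ∀ j, j ≤ c → ((Subgroup.upperCentralSeries G (c - j)).subgroupOf K).index ≠ 0 := by
    intro j
    induction j with
    | zero =>
      intro _
      rw [Nat.sub_zero]
      set N := (Subgroup.upperCentralSeries G c).subgroupOf K with hN
      haveI : N.Normal := Subgroup.Normal.subgroupOf inferInstance K
      have hq : ∀ q : K ⧸ N, q ^ d = 1 := by
        intro q
        induction q using QuotientGroup.induction_on with
        | H k =>
          rw [← QuotientGroup.mk_pow, QuotientGroup.eq_one_iff, hN, Subgroup.mem_subgroupOf]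
          exact h k
      have hf : Finite (K ⧸ N) := by
        interval_cases d
        · exact H15.Struct.finite_exp4 inferInstance fun q => by
            have := hq q
            rw [pow_one] at this
            rw [this, one_pow]
        · exact H15.Struct.finite_exp4 inferInstance fun q => by
            have := hq q
            rw [show (4:ℕ) = 2 * 2 from rfl, pow_mul, this, one_pow]
        · exact H15.Struct.finite_exp3 inferInstance hq
        · exact H15.Struct.finite_exp4 inferInstance hq
      exact (Subgroup.finiteIndex_of_finite_quotient (H := N)).index_ne_zero
    | succ j ih =>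
      intro hj
      have h1 := ih (by omega)
      obtain ⟨i, hi⟩ : ∃ i, c - j = i + 1 := ⟨c - j - 1, by omega⟩
      have hi' : c - (j + 1) = i := by omega
      rw [hi] at h1
      rw [hi']
      set N := (Subgroup.upperCentralSeries G (i + 1)).subgroupOf K with hN
      set M := (Subgroup.upperCentralSeries G i).subgroupOf K with hM
      haveI : M.Normal := Subgroup.Normal.subgroupOf inferInstance K
      haveI : N.FiniteIndex := ⟨h1⟩
      haveI : Group.FG N := Subgroup.fg_of_index_ne_zero N
      have hMN : M ≤ N := by
        intro x hx
        rw [hM, Subgroup.mem_subgroupOf] at hx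
        rw [hN, Subgroup.mem_subgroupOf]
        exact Subgroup.upperCentralSeries_mono G (Nat.le_succ i) hx
      haveI : (M.subgroupOf N).Normal := Subgroup.Normal.subgroupOf inferInstance N
      have hf : Finite (N ⧸ M.subgroupOf N) := by
        apply finite_of_comm
        · intro q
          induction q using QuotientGroup.induction_on with
          | H k =>
            have h2 := hp ((k : K) : G)
            obtain ⟨n, hn, hn1⟩ := isOfFinOrder_iff_pow_eq_one.1 h2
            refine isOfFinOrder_iff_pow_eq_one.2 ⟨n, hn, ?_⟩
            rw [← QuotientGroup.mk_pow]
            have : k ^ n = 1 := by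
              apply Subtype.ext
              apply Subtype.ext
              push_cast
              exact hn1
            rw [this]; rfl
        · intro a b
          induction a using QuotientGroup.induction_on with
          | H a =>
            induction b using QuotientGroup.induction_on with
            | H b =>
              rw [← QuotientGroup.mk_mul, ← QuotientGroup.mk_mul, QuotientGroup.eq,
                Subgroup.mem_subgroupOf, hM, Subgroup.mem_subgroupOf]
              have hb : ((b : K) : G) ∈ Subgroup.upperCentralSeries G (i + 1) :=
                Subgroup.mem_subgroupOf.1 b.2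
              have h3 := Subgroup.mem_upperCentralSeries_succ_iff.1
                (inv_mem hb) (((a : K) : G)⁻¹)
              push_cast
              convert h3 using 1
              group
      have h4 : (M.subgroupOf N).index ≠ 0 :=
        (Subgroup.finiteIndex_of_finite_quotient (H := M.subgroupOf N)).index_ne_zero
      have h5 := Subgroup.relIndex_mul_index hMN
      rw [← h5]
      exact mul_ne_zero h4 h1
  have h0 := key c le_rfl
  rw [Nat.sub_self, Subgroup.upperCentralSeries_zero, Subgroup.bot_subgroupOf,
    Subgroup.index_bot] at h0
  exact Nat.finite_of_card_ne_zero h0

end H446.EV
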