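import Mathlib

set_option autoImplicit false

/-!
Groups with a balanced identity `Z_{n+1} = W`, `Z_{n+1}` a Zimin word.
-/

namespace H446.EV

/-- the Zimin words: `Z 0` is empty, `Z (n+1) = Z n ++ [n] ++ Z n` -/
def Z : ℕ → List ℕ
  | 0 => []
  | n + 1 => Z n ++ n :: Z n

/-- value of a word in a group -/
def val {G : Type*} [Group G] (v : ℕ → G) (w : List ℕ) : G := (w.map v).prod

section
variable {G : Type*} [Group G]

theorem val_append (v : ℕ → G) (a b : List ℕ) : val v (a ++ b) = val v a * val v b := by
  simp [val]

theorem val_cons (v : ℕ → G) (i : ℕ) (b : List ℕ) : val v (i :: b) = v i * val v b := by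
  simp [val]

/-- the value depends only on the letters which occur -/
theorem val_congr {v v' : ℕ → G} {w : List ℕ} (h : ∀ i ∈ w, v i = v' i) : val v w = val v' w := by
  unfold val
  rw [List.map_congr_left h]

theorem count_Z (n i : ℕ) : (Z n).count i = if i < n then 2 ^ (n - 1 - i) else 0 := by
  induction n with
  | zero => simp [Z]
  | succ n ih =>
    simp only [Z, List.count_append, List.count_cons, ih]
    by_cases h1 : i < n
    · have h2 : i ≠ n := by omega
      have h3 : i < n + 1 := by omega
      have h4 : (n == i) = false := by simp; omega
      rw [if_pos h1, if_pos h3, h4]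
      have h5 : n + 1 - 1 - i = (n - 1 - i) + 1 := by omega
      rw [h5, pow_succ]
      simp; ring
    · by_cases h2 : i = n
      · subst h2
        simp
      · have h3 : ¬ i < n + 1 := by omega
        have h4 : (n == i) = false := by simp; omega
        rw [if_neg h1, if_neg h3, h4]
        simp

/-- value at a single letter -/
theorem val_single (g : G) (i : ℕ) (w : List ℕ) :
    val (fun j => if j = i then g else 1) w = g ^ w.count i := by
  induction w with
  | nil => simp [val]
  | cons j w ih =>
    rw [val_cons, ih]
    by_cases h : j = i
    · subst h
      simp [pow_succ']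
    · rw [if_neg h, one_mul, List.count_cons_of_ne h]

end

universe u

section
variable {G : Type u} [Group G]

/-- from one law with a letter occurring once on both sides -/
theorem split_law {k : ℕ} {A B : List ℕ} (hA : k ∉ A) (hB : k ∉ B)
    (hl : ∀ v : ℕ → G, val v (Z (k + 1)) = val v (A ++ k :: B)) (v : ℕ → G) :
    (val v A)⁻¹ * val v (Z k) ∈ Subgroup.center G ∧
      (val v B)⁻¹ * val v (Z k) ∈ Subgroup.center G := by
  have hZm : k ∉ Z k := by
    apply List.count_eq_zero.mp
    rw [count_Z]; simp
  have law : ∀ (x : G), val v (Z k) * x * val v (Z k) = val v A * x * val v B := by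
    intro x
    have h1 := hl (Function.update v k x)
    have e : ∀ w : List ℕ, k ∉ w → val (Function.update v k x) w = val v w := by
      intro w hw
      apply val_congr
      intro i hi
      rw [Function.update_of_ne]
      rintro rfl
      exact hw hi
    simp only [Z] at h1
    rw [val_append, val_cons, val_append, val_cons, e _ hZm, e _ hA, e _ hB,
      Function.update_self] at h1
    rw [mul_assoc, h1, ← mul_assoc]
  have h1 := law 1
  rw [mul_one, mul_one] at h1
  have e1 : (val v A)⁻¹ * val v (Z k) = val v B * (val v (Z k))⁻¹ := by
    rw [inv_mul_eq_iff_eq_mul, ← mul_assoc, ← h1]; group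
  have cen : (val v A)⁻¹ * val v (Z k) ∈ Subgroup.center G := by
    rw [Subgroup.mem_center_iff]
    intro x
    have h2 := law x
    have e2 : (val v A)⁻¹ * val v (Z k) * x = x * (val v B * (val v (Z k))⁻¹) := by
      rw [mul_assoc, inv_mul_eq_iff_eq_mul]
      have : val v (Z k) * x = (val v A * x * val v B) * (val v (Z k))⁻¹ := by
        rw [← h2]; group
      rw [this]; group
    rw [e2, e1]
  refine ⟨cen, ?_⟩
  have h3 : (val v B)⁻¹ * val v (Z k) = (val v B)⁻¹ * (val v B * (val v (Z k))⁻¹)⁻¹ * val v B := by
    group
  rw [h3, ← e1]
  have h4 := (Subgroup.center G).inv_mem cen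
  have h5 := (Subgroup.mem_center_iff.mp h4) (val v B)⁻¹
  rw [h5]
  simpa using h4

theorem quot_law {A B : List ℕ} (h : ∀ v : ℕ → G, (val v A)⁻¹ * val v B ∈ Subgroup.center G)
    (v : ℕ → G ⧸ Subgroup.center G) : val v B = val v A := by
  have hs : Function.Surjective (QuotientGroup.mk' (Subgroup.center G)) :=
    QuotientGroup.mk'_surjective _
  choose f hf using hs
  have hv : ∀ w : List ℕ, val v w =
      QuotientGroup.mk' (Subgroup.center G) (val (fun i => f (v i)) w) := by
    intro w
    unfold val
    rw [map_list_prod, List.map_map]
    congr 1
    apply List.map_congr_left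
    intro i _
    exact (hf (v i)).symm
  rw [hv, hv, eq_comm]
  exact (QuotientGroup.eq).mpr (h fun i => f (v i))

end

theorem all_one {α : Type*} (f : α → ℕ) : ∀ L : List α, (∀ a ∈ L, 1 ≤ f a) →
    (L.map f).sum = L.length → ∀ a ∈ L, f a = 1 := by
  intro L
  induction L with
  | nil => intro _ _ a ha; simp at ha
  | cons b L ih =>
    intro h1 h2 a ha
    have hb := h1 b List.mem_cons_self
    have hL : L.length ≤ (L.map f).sum := by
      have : ∀ M : List α, (∀ a ∈ M, 1 ≤ f a) → M.length ≤ (M.map f).sum := by
        intro M
        induction M with
        | nil => intro _; simp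
        | cons c M ihM =>
          intro hM
          have := hM c List.mem_cons_self
          have := ihM fun a ha => hM a (List.mem_cons_of_mem _ ha)
          simp only [List.length_cons, List.map_cons, List.sum_cons]
          omega
      exact this L fun a ha => h1 a (List.mem_cons_of_mem _ ha)
    simp only [List.length_cons, List.map_cons, List.sum_cons] at h2
    rcases List.mem_cons.mp ha with rfl | ha
    · omega
    · exact ih (fun a ha => h1 a (List.mem_cons_of_mem _ ha)) (by omega) a ha

/-- **main induction** -/
theorem nilp_of_laws (k : ℕ) : ∀ (G : Type u) [Group G] (L : List (List ℕ)),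
    (∀ A ∈ L, ∀ v : ℕ → G, val v (Z k) = val v A) →
    (∀ i, (L.map (fun A => A.count i)).sum = L.length * (Z k).count i) →
    (∃ A ∈ L, A ≠ Z k) →
    ∃ c, c + 1 = k ∧ Subgroup.upperCentralSeries G c = ⊤ := by
  induction k with
  | zero =>
    intro G _ L _ hc ⟨A, hA, hne⟩
    exfalso
    apply hne
    have : A = [] := by
      rw [List.eq_nil_iff_forall_not_mem]
      intro a ha
      have h1 := List.count_pos_iff.mpr ha
      have h2 := hc a
      simp only [Z, List.count_nil, mul_zero] at h2
      have h3 := List.sum_eq_zero_iff.mp h2 (A.count a) (List.mem_map.mpr ⟨A, hA, rfl⟩)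
      omega
    rw [this]; rfl
  | succ k ih =>
    intro G _ L hl hc ⟨A0, hA0, hne⟩
    by_cases h0 : ∃ A ∈ L, A.count k = 0
    · obtain ⟨A, hA, hk⟩ := h0
      have ht : ∀ g : G, g = 1 := by
        intro g
        have h1 := hl A hA (fun j => if j = k then g else 1)
        rw [val_single, val_single, hk, count_Z] at h1
        simpa using h1
      refine ⟨k, rfl, ?_⟩
      rw [eq_top_iff]
      intro g _
      rw [ht g]
      exact one_mem _
    · push Not at h0
      have hone : ∀ A ∈ L, A.count k = 1 := by
        apply all_one
        · intro A hA
          have := h0 A hA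
          omega
        · rw [hc, count_Z]; simp
      -- split the words
      let l : List ℕ → List ℕ := fun A => A.takeWhile (fun j => decide (j ≠ k))
      let r : List ℕ → List ℕ := fun A => (A.dropWhile (fun j => decide (j ≠ k))).tail
      have hsp : ∀ A ∈ L, A = l A ++ k :: r A ∧ k ∉ l A ∧ k ∉ r A := by
        intro A hA
        have h1 := hone A hA
        have hmem : k ∈ A := List.count_pos_iff.mp (by omega)
        have hd : A.dropWhile (fun j => decide (j ≠ k)) ≠ [] := by
          intro h
          rw [List.dropWhile_eq_nil_iff] at h
          have := h k hmem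
          simp at this
        have hhd : (A.dropWhile (fun j => decide (j ≠ k))).head hd = k := by
          have := List.head_dropWhile_not (fun j => decide (j ≠ k)) hd
          simpa using this
        have e : A = l A ++ k :: r A := by
          conv_lhs => rw [← List.takeWhile_append_dropWhile (p := fun j => decide (j ≠ k)) (l := A)]
          congr 1
          conv_lhs => rw [← List.cons_head_tail hd]
          rw [hhd]
        refine ⟨e, ?_⟩
        rw [e, List.count_append, List.count_cons_self] at h1
        exact ⟨List.count_eq_zero.mp (by omega), List.count_eq_zero.mp (by omega)⟩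
      have hlaw : ∀ A ∈ L, ∀ v : ℕ → G, (val v (l A))⁻¹ * val v (Z k) ∈ Subgroup.center G ∧
          (val v (r A))⁻¹ * val v (Z k) ∈ Subgroup.center G := by
        intro A hA v
        obtain ⟨e, h1, h2⟩ := hsp A hA
        exact split_law h1 h2 (fun v => by rw [← e]; exact hl A hA v) v
      obtain ⟨c, hck, htop⟩ := ih (G ⧸ Subgroup.center G) (L.map l ++ L.map r) (by
        intro B hB v
        rcases List.mem_append.mp hB with hB | hB
        · obtain ⟨A, hA, rfl⟩ := List.mem_map.mp hB
          exact quot_law (fun v => (hlaw A hA v).1) v
        · obtain ⟨A, hA, rfl⟩ := List.mem_map.mp hB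
          exact quot_law (fun v => (hlaw A hA v).2) v) (by
        intro i
        have hsum : ∀ M : List (List ℕ), (∀ A ∈ M, A = l A ++ k :: r A) →
            ((M.map l ++ M.map r).map (fun A => A.count i)).sum + (if k = i then M.length else 0) =
              (M.map (fun A => A.count i)).sum := by
          intro M
          induction M with
          | nil => intro _; simp
          | cons A M ihM =>
            intro hM
            have h1 := ihM fun A hA => hM A (List.mem_cons_of_mem _ hA)
            have h2 := congrArg (fun w => List.count i w) (hM A List.mem_cons_self)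
            simp only [List.count_append, List.count_cons] at h2
            simp only [List.map_append, List.map_map, List.sum_append, List.map_cons,
              List.sum_cons, List.length_cons, Function.comp] at h1 ⊢
            by_cases hki : k = i
            · subst hki
              simp only [if_true, beq_self_eq_true] at h1 h2 ⊢
              omega
            · have h4 : (k == i) = false := by simpa using hki
              rw [h4] at h2
              simp only [if_neg hki, Bool.false_eq_true, if_false] at h1 h2 ⊢
              omega
        have h1 := hsum L fun A hA => (hsp A hA).1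
        rw [hc i] at h1
        have h2 : (Z (k + 1)).count i = 2 * (Z k).count i + if k = i then 1 else 0 := by
          simp only [Z, List.count_append, List.count_cons]
          by_cases hki : k = i
          · subst hki; simp; omega
          · have h4 : (k == i) = false := by simpa using hki
            rw [h4, if_neg hki]; simp; omega
        rw [h2] at h1
        simp only [List.length_append, List.length_map]
        by_cases hki : k = i
        · simp only [if_pos hki] at h1
          have : L.length * (2 * (Z k).count i + 1) = 2 * (L.length * (Z k).count i) + L.length := by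
            ring
          rw [this] at h1
          have h5 : (L.length + L.length) * (Z k).count i = 2 * (L.length * (Z k).count i) := by ring
          rw [h5]
          omega
        · simp only [if_neg hki, add_zero] at h1
          rw [h1]; ring) (by
        by_contra hcon
        push Not at hcon
        apply hne
        have e := (hsp A0 hA0).1
        have e1 : l A0 = Z k :=
          hcon _ (List.mem_append.mpr (Or.inl (List.mem_map.mpr ⟨A0, hA0, rfl⟩)))
        have e2 : r A0 = Z k :=
          hcon _ (List.mem_append.mpr (Or.inr (List.mem_map.mpr ⟨A0, hA0, rfl⟩)))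
        rw [e, e1, e2]; rfl)
      refine ⟨k, rfl, ?_⟩
      rw [← hck, ← Nat.succ_eq_add_one, ← Subgroup.comap_upperCentralSeries_quotient_center, htop,
        Subgroup.comap_top]

end H446.EV
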